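import Pool.Agent.Q191.EX.Lab
import Pool.Agent.Q50.EX.Spec

/-! Job J3 of project EX of helper50. -/
set_option autoImplicit false

namespace Pool.Agent.Q191.EX

theorem s3 : Pool.Agent.Q50.EX.S3 := by
  intro K ι _ _ _ M l p A hA hd hp h2
  exact lab hA hd hp h2

end Pool.Agent.Q191.EX
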