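import Mathlib

/-! The labels of a chain (job J3 of project EX of helper50). -/
set_option autoImplicit false

namespace Pool.Agent.Q191.EX

section
variable {K ι : Type} [Field K] [CharZero K] [DecidableEq ι] {M : ℕ} {l : ℕ → ι}
  {p : ℕ → K} {A : ι → ι → K}

/-- the labels -/
theorem lab (hA : ∀ j < M, ∀ i, A (l j) i = (if l j = i then 2 * p j else 0) -
    (if 0 < j ∧ l (j - 1) = i then p (j - 1) else 0) -
    (if j + 1 < M ∧ l (j + 1) = i then p (j + 1) else 0))
    (hd : ∀ i, A i i = 2) (hp : ∀ j < M, p j ≠ 0) (h2 : ∀ j, j + 2 < M → l j ≠ l (j + 2)) :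
    (∀ j < M, ∀ j' < M, l j = l j' → j = j') ∨
      (Even M ∧ ∀ j < M, l j = l (M - 1 - j) ∧ p j = p (M - 1 - j)) := by
  by_cases hdb : ∃ j, j + 1 < M ∧ l j = l (j + 1)
  · right
    obtain ⟨j, hj, hjl⟩ := hdb
    have hpj : p j = p (j + 1) := by
      have e1 := hA j (by omega) (l j)
      have e2 := hA (j + 1) hj (l j)
      have n1 : ¬ (0 < j ∧ l (j - 1) = l j) := by
        rintro ⟨h5, h6⟩
        apply h2 (j - 1) (by omega)
        rw [h6, show j - 1 + 2 = j + 1 by omega]
        exact hjl
      rw [hd, if_pos rfl, if_neg n1, if_pos ⟨hj, hjl.symm⟩] at e1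
      · rw [← hjl, hd, if_pos rfl, if_pos ⟨by omega, by rw [Nat.add_sub_cancel]⟩, if_neg] at e2
        · rw [Nat.add_sub_cancel] at e2
          have e3 : (3 : K) * (p j - p (j + 1)) = 0 := by linear_combination e2 - e1
          have h3 : (3 : K) ≠ 0 := by norm_num
          exact sub_eq_zero.1 ((mul_eq_zero.1 e3).resolve_left h3)
        · rintro ⟨h5, h6⟩
          exact h2 j (by omega) h6.symm
    -- the step
    have step : ∀ a b, a < b → b < M → a + 1 < M → l a = l b → p a = p b →
        l (a + 1) = l (b - 1) → p (a + 1) = p (b - 1) →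
        (0 < a ↔ b + 1 < M) ∧ (0 < a → l (a - 1) = l (b + 1) ∧ p (a - 1) = p (b + 1)) := by
      intro a b hab hb ha1 hl hpab hl1 hp1
      have key : ∀ i, (if 0 < a ∧ l (a - 1) = i then p (a - 1) else 0) =
          (if b + 1 < M ∧ l (b + 1) = i then p (b + 1) else 0) := by
        intro i
        have e1 := hA a (by omega) i
        have e2 := hA b hb i
        rw [← hl] at e2
        rw [e1] at e2
        have e3 : (if a + 1 < M ∧ l (a + 1) = i then p (a + 1) else 0) =
            (if 0 < b ∧ l (b - 1) = i then p (b - 1) else 0) := by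
          rw [hl1, hp1]
          by_cases h : l (b - 1) = i
          · rw [if_pos ⟨ha1, h⟩, if_pos ⟨by omega, h⟩]
          · rw [if_neg (fun h' => h h'.2), if_neg (fun h' => h h'.2)]
        rw [e3, hpab] at e2
        linear_combination -e2
      by_cases ha : 0 < a
      · have k1 := key (l (a - 1))
        rw [if_pos ⟨ha, rfl⟩] at k1
        by_cases hc : b + 1 < M ∧ l (b + 1) = l (a - 1)
        · rw [if_pos hc] at k1
          exact ⟨⟨fun _ => hc.1, fun _ => ha⟩, fun _ => ⟨hc.2.symm, k1⟩⟩
        · rw [if_neg hc] at k1
          exact absurd k1 (hp _ (by omega))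
      · refine ⟨⟨fun h => absurd h ha, fun h => ?_⟩, fun h => absurd h ha⟩
        have k1 := key (l (b + 1))
        rw [if_neg (fun h' => ha h'.1), if_pos ⟨h, rfl⟩] at k1
        exact absurd k1.symm (hp _ h)
    have Q : ∀ t, ((t ≤ j ↔ j + 1 + t < M) ∧ (t ≤ j → l (j - t) = l (j + 1 + t) ∧
        p (j - t) = p (j + 1 + t))) ∧
        ((t + 1 ≤ j ↔ j + 1 + (t + 1) < M) ∧ (t + 1 ≤ j → l (j - (t + 1)) = l (j + 1 + (t + 1)) ∧
        p (j - (t + 1)) = p (j + 1 + (t + 1)))) := by
      intro t
      induction t with
      | zero =>
        have s := step j (j + 1) (by omega) hj hj hjl hpj (by rw [Nat.add_sub_cancel]; exact hjl.symm)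
          (by rw [Nat.add_sub_cancel]; exact hpj.symm)
        refine ⟨⟨⟨fun _ => by omega, fun _ => by omega⟩, fun _ => ⟨hjl, hpj⟩⟩,
          ⟨⟨fun h => s.1.1 (by omega), fun h => ?_⟩, fun h => s.2 (by omega)⟩⟩
        have := s.1.2 h
        omega
      | succ t ih =>
        refine ⟨ih.2, ?_⟩
        by_cases ht : t + 1 ≤ j
        · have h1 := ih.2.2 ht
          have h3 := ih.2.1.1 ht
          have h0 := ih.1.2 (by omega)
          have s := step (j - (t + 1)) (j + 1 + (t + 1)) (by omega) h3 (by omega) h1.1 h1.2
            (by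
              rw [show j - (t + 1) + 1 = j - t by omega,
                show j + 1 + (t + 1) - 1 = j + 1 + t by omega]
              exact h0.1)
            (by
              rw [show j - (t + 1) + 1 = j - t by omega,
                show j + 1 + (t + 1) - 1 = j + 1 + t by omega]
              exact h0.2)
          refine ⟨⟨fun h => s.1.1 (by omega), fun h => ?_⟩, fun h => ?_⟩
          · have := s.1.2 h
            omega
          · have := s.2 (by omega)
            rw [show j - (t + 1) - 1 = j - (t + 1 + 1) by omega] at this
            exact this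
        · have h3 := ih.2.1
          refine ⟨⟨fun h => by omega, fun h => ?_⟩, fun h => by omega⟩
          have : j + 1 + (t + 1) < M := by omega
          exact absurd (h3.2 this) ht
    have q1 := (Q j).1.1.1 le_rfl
    have q2 : ¬ (j + 1 + (j + 1) < M) := fun h => by
      have := (Q j).2.1.2 h
      omega
    have hM : M = 2 * j + 2 := by omega
    refine ⟨⟨j + 1, by omega⟩, fun i hi => ?_⟩
    rcases le_or_gt i j with h | h
    · have := (Q (j - i)).1.2 (by omega)
      rw [show j - (j - i) = i by omega, show j + 1 + (j - i) = M - 1 - i by omega] at this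
      exact this
    · have := (Q (i - j - 1)).1.2 (by omega)
      rw [show j - (i - j - 1) = M - 1 - i by omega,
        show j + 1 + (i - j - 1) = i by omega] at this
      exact ⟨this.1.symm, this.2.symm⟩
  · left
    push Not at hdb
    have hp1 : ∀ j < M, p j = 1 := by
      intro j hj
      have e1 := hA j hj (l j)
      rw [hd, if_pos rfl, if_neg, if_neg] at e1
      · have h3 : (2 : K) ≠ 0 := by norm_num
        apply mul_left_cancel₀ h3
        linear_combination -e1
      · rintro ⟨h5, h6⟩
        exact hdb j h5 h6.symm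
      · rintro ⟨h5, h6⟩
        apply hdb (j - 1) (by omega)
        rw [h6]
        congr 1
        omega
    by_contra hcon
    -- a pair with minimal distance
    have ex : ∃ d, 0 < d ∧ ∃ j, j + d < M ∧ l j = l (j + d) := by
      push Not at hcon
      obtain ⟨j, hj, j', hj', hl, hne⟩ := hcon
      rcases lt_or_gt_of_ne hne with h | h
      · exact ⟨j' - j, by omega, j, by omega, by rw [show j + (j' - j) = j' by omega]; exact hl⟩
      · exact ⟨j - j', by omega, j', by omega, by
          rw [show j' + (j - j') = j by omega]; exact hl.symm⟩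
    classical
    obtain ⟨hd0, j, hjd, hjl⟩ := Nat.find_spec ex
    have hmin : ∀ d', 0 < d' → d' < Nat.find ex → ∀ a, a + d' < M → l a ≠ l (a + d') := by
      intro d' h0 hlt a ha hla
      exact Nat.find_min ex hlt ⟨h0, a, ha, hla⟩
    obtain ⟨d, hdd⟩ : ∃ d, d = Nat.find ex := ⟨_, rfl⟩
    rw [← hdd] at hd0 hjd hjl hmin
    have d3 : 3 ≤ d := by
      by_contra h
      have : d = 1 ∨ d = 2 := by omega
      rcases this with h1 | h1
      · rw [h1] at hjd hjl
        exact hdb j hjd hjl
      · rw [h1] at hjd hjl
        exact h2 j hjd hjl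
    have run : ∀ t, j + t + d < M ∧ l (j + t) = l (j + t + d) := by
      intro t
      induction t with
      | zero => exact ⟨hjd, hjl⟩
      | succ t ih =>
        obtain ⟨i1, i2⟩ := ih
        have e1 := hA (j + t) (by omega) (l (j + t + 1))
        have e2 := hA (j + t + d) i1 (l (j + t + 1))
        rw [if_neg (hdb (j + t) (by omega)), if_neg, if_pos ⟨by omega, rfl⟩, hp1 _ (by omega)] at e1
        · rw [← i2, e1, if_neg, if_neg] at e2
          · by_cases hc : j + t + d + 1 < M ∧ l (j + t + d + 1) = l (j + t + 1)
            · refine ⟨by omega, ?_⟩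
              rw [show j + (t + 1) = j + t + 1 by omega,
                show j + t + 1 + d = j + t + d + 1 by omega]
              exact hc.2.symm
            · rw [if_neg hc] at e2
              norm_num at e2
          · rintro ⟨h5, h6⟩
            apply hmin (d - 2) (by omega) (by omega) (j + t + 1) (by omega)
            rw [show j + t + 1 + (d - 2) = j + t + d - 1 by omega]
            exact h6.symm
          · intro h6
            apply hmin (d - 1) (by omega) (by omega) (j + t + 1) (by omega)
            rw [show j + t + 1 + (d - 1) = j + t + d by omega, ← h6]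
            exact i2
        · rintro ⟨h5, h6⟩
          apply h2 (j + t - 1) (by omega)
          rw [h6]
          congr 1
          omega
    have := (run M).1
    omega

end

end Pool.Agent.Q191.EX
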